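import Pool.Agent.V7H14.BN.Main
import Pool.Agent.V7H14.BP.Bracket
import Pool.Agent.V7H14.BP.Liou
import Pool.Agent.V7H14.BP.AlgE

set_option autoImplicit false

/-!
# Record prime gaps around the values of bracket polynomials

Let `R(Z) = log Z (log₂ Z)² log₄ Z / (log₃ Z)²`, the size of the largest gaps between consecutive primes that are
known to occur up to `Z`. Let `P_1, …, P_r` be real polynomials (`r ≥ 1`) such that no nontrivial integer
combination of them has only rational coefficients in positive degree, and suppose that EITHER all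
coefficients of positive degree lie in the ring generated by the real algebraic numbers and `e`, OR, for some
`c, τ > 0`, the highest irrational coefficient of `h_1 P_1 + ⋯ + h_r P_r` has distance at least `c H ^ (-τ)` from the
integers, for all integer vectors `h` with entries at most `H` (for `r = 1` it is enough that no coefficient of
positive degree is a Liouville number, `diophantine_one`).

Let `F_1, …, F_k` be polynomials in `r + 1` variables with integer coefficients such that every `F_j` has a translate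
`F_j - c` (`c` a complex number) which is irreducible over the complex numbers (equivalently, `F_j` is noncomposite)
and no two of the `F_j` are linearly dependent modulo the constants.

Then for every `ε > 0` there is `κ > 0` such that for all large `Z` every interval `(M, M + Z]`, `M ≥ 0`, contains at
least `Z ^ (1 - ε)` integers `n` such that for all `j` at the same time every integer at distance at most `κ R(Z)` of
the bracket polynomial `F_j(n, ⌊P_1(n)⌋, …, ⌊P_r(n)⌋)` has a prime factor `≤ Z ^ ε`. So no prime `> Z ^ ε` is so close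
to any of these numbers.

Examples: `n ⌊n √2⌋`, `n² + ⌊n √2⌋²`, `⌊n³ √2⌋² - n⁷ + 3 n ⌊n³ √2⌋`, `⌊n √2⌋ ⌊n √3⌋`, `n ⌊n √2⌋ + ⌊n² √3⌋²`.
-/

namespace Pool.Agent.Results.MP_f9960f_nt.BracketPolynomialsH14

open Finset Filter

/-- the record scale `R(Z) = log Z (log₂ Z)² log₄ Z / (log₃ Z)²` (iterated natural logarithms) -/
noncomputable def R (Z : ℝ) : ℝ :=
  Real.log Z * (Real.log (Real.log Z)) ^ 2 * Real.log (Real.log (Real.log (Real.log Z))) /
    (Real.log (Real.log (Real.log Z))) ^ 2

/-- Some translate `F - c` is irreducible in `ℂ[x_1, …, x_n]`. -/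
def HasIrreducibleTranslate {n : ℕ} (F : MvPolynomial (Fin n) ℤ) : Prop :=
  ∃ c : ℂ, Irreducible (MvPolynomial.map (Int.castRingHom ℂ) F - MvPolynomial.C c)

/-- no nontrivial integer combination of the polynomials has only rational coefficients in positive degree -/
def Independent {r : ℕ} (P : Fin r → Polynomial ℝ) : Prop :=
  ∀ h : Fin r → ℤ, h ≠ 0 → ∃ i, 1 ≤ i ∧ Irrational ((∑ j, h j • P j).coeff i)

/-- all coefficients of positive degree lie in the ring generated by the real algebraic numbers and `e` -/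
def AlgebraicOrE {r : ℕ} (P : Fin r → Polynomial ℝ) : Prop :=
  ∀ j i, 1 ≤ i → (P j).coeff i ∈ Algebra.adjoin ℚ ({x : ℝ | IsAlgebraic ℚ x} ∪ {Real.exp 1})

/-- for some `c, τ > 0`: if the entries of the integer vector `h` are at most `H`, then the irrational coefficient of
`h₁ P₁ + ⋯ + h_r P_r` of the highest degree (if there is one in positive degree) has distance at least `c H ^ (-τ)`
from the integers -/
def Diophantine {r : ℕ} (P : Fin r → Polynomial ℝ) : Prop :=
  ∃ c τ : ℝ, 0 < c ∧ 0 < τ ∧ ∀ (H : ℕ) (h : Fin r → ℤ), (∀ j, |h j| ≤ H) → ∀ i, 1 ≤ i →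
    Irrational ((∑ j, h j • P j).coeff i) → (∀ l, i < l → ¬ Irrational ((∑ j, h j • P j).coeff l)) →
    ∀ m : ℤ, c * (H : ℝ) ^ (-τ) ≤ |(∑ j, h j • P j).coeff i - m|

lemma coeff_comb {r : ℕ} (P : Fin r → Polynomial ℝ) (h : Fin r → ℤ) (i : ℕ) :
    (∑ j, h j • P j).coeff i = ∑ j, (h j : ℝ) * (P j).coeff i := by
  rw [Polynomial.finsetSum_coeff]
  apply Finset.sum_congr rfl
  intro j _
  rw [Polynomial.coeff_smul, zsmul_eq_mul]

/-- **Record prime gaps around the values of bracket polynomials.** -/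
theorem result {ι : Type} [Finite ι] {r : ℕ} (hr : 1 ≤ r) (F : ι → MvPolynomial (Fin (r + 1)) ℤ)
    (hF : ∀ j, HasIrreducibleTranslate (F j))
    (hind : ∀ i j, i ≠ j → ∀ a b c : ℤ,
      MvPolynomial.C a * F i + MvPolynomial.C b * F j = MvPolynomial.C c → a = 0 ∧ b = 0)
    (P : Fin r → Polynomial ℝ) (hP : Independent P) (hD : AlgebraicOrE P ∨ Diophantine P)
    (ε : ℝ) (hε : 0 < ε) (hε1 : ε ≤ 1) :
    ∃ κ : ℝ, 0 < κ ∧ ∃ Z₀ : ℝ, ∀ Z : ℝ, Z₀ ≤ Z → ∀ M : ℝ, 0 ≤ M →
      ∃ G : Finset ℕ, Z ^ (1 - ε) ≤ (G.card : ℝ) ∧ ∀ n ∈ G, M < n ∧ (n : ℝ) ≤ M + Z ∧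
        ∀ j, ∀ m : ℤ, |(m : ℝ) - (MvPolynomial.eval
            (Fin.cons (n : ℤ) (fun i => ⌊(P i).eval (n : ℝ)⌋) : Fin (r + 1) → ℤ) (F j) : ℤ)| ≤ κ * R Z →
          ∃ q : ℕ, q.Prime ∧ (q : ℝ) ≤ Z ^ ε ∧ (q : ℤ) ∣ m := by
  have := Fintype.ofFinite ι
  have hcrit : Pool.Agent.N542.PT.Crit (r + 1) F := by
    obtain ⟨m, rfl⟩ : ∃ m, r = m + 1 := ⟨r - 1, by omega⟩
    exact Pool.Agent.V7H14.BN.crit_n F hF hind
  have hP' : ∀ h : Fin r → ℤ, h ≠ 0 → ∃ i, 1 ≤ i ∧
      Irrational (∑ j, (h j : ℝ) * (P j).coeff i) := by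
    intro h hh
    obtain ⟨i, hi, hirr⟩ := hP h hh
    exact ⟨i, hi, by rw [← coeff_comb]; exact hirr⟩
  rcases hD with hD | ⟨c, τ, hc, hτ, hd⟩
  · obtain ⟨c, τ, hc, hdio⟩ := Pool.Agent.V7H14.BP.dio_algExp P hD
    exact Pool.Agent.V7H14.BP.polys_crit r hr F hcrit P hP' c τ hc hdio ε hε hε1
  · refine Pool.Agent.V7H14.BP.polys_crit r hr F hcrit P hP' c τ hc ?_ ε hε hε1
    intro H h hH i hi hirr hl m
    have hH' : ∀ j, |h j| ≤ (⌊H⌋₊ : ℤ) := by
      intro j
      have h3 : ((h j).natAbs : ℝ) ≤ H := by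
        rw [Nat.cast_natAbs]
        push_cast
        exact hH j
      have h4 : (h j).natAbs ≤ ⌊H⌋₊ := Nat.le_floor h3
      rw [← Int.natCast_natAbs]
      exact_mod_cast h4
    have h1 := hd ⌊H⌋₊ h hH' i hi (by rw [coeff_comb]; exact hirr)
      (fun l hl' => by rw [coeff_comb]; exact hl l hl') m
    rw [coeff_comb] at h1
    refine le_trans (mul_le_mul_of_nonneg_left ?_ hc.le) h1
    have hj : ∃ j, h j ≠ 0 := by
      by_contra hcon
      push Not at hcon
      apply hirr
      refine ⟨0, ?_⟩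
      simp [hcon]
    obtain ⟨j, hj⟩ := hj
    have h5 : 1 ≤ ⌊H⌋₊ := by
      have := Int.one_le_abs hj
      have := hH' j
      omega
    have h6 : (0 : ℝ) < ⌊H⌋₊ := by exact_mod_cast h5
    have hH0 : 0 ≤ H := by
      by_contra hcon
      push Not at hcon
      have := hH j
      have := abs_nonneg (h j : ℝ)
      linarith
    exact Real.rpow_le_rpow_of_nonpos h6 (Nat.floor_le hH0) (by linarith)

/-- One polynomial without Liouville coefficients satisfies the Diophantine condition. -/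
theorem diophantine_one (P : Polynomial ℝ) (hL : ∀ i, 1 ≤ i → ¬ Liouville (P.coeff i)) :
    Diophantine (fun _ : Fin 1 => P) := by
  obtain ⟨c, τ, hc, hd⟩ := Pool.Agent.V7H14.BP.dio_liouville (fun _ => P) hL
  refine ⟨c, max τ 1, hc, lt_of_lt_of_le one_pos (le_max_right _ _), ?_⟩
  intro H h hH i hi hirr hl m
  rw [coeff_comb] at hirr ⊢
  have h1 := hd H h (fun j => by
    have := hH j
    have h3 : ((|h j| : ℤ) : ℝ) ≤ ((H : ℤ) : ℝ) := by exact_mod_cast this
    push_cast at h3
    exact h3) i hi hirr (fun l hl' => by rw [← coeff_comb]; exact hl l hl') m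
  refine le_trans (mul_le_mul_of_nonneg_left ?_ hc.le) h1
  have hj : ∃ j, h j ≠ 0 := by
    by_contra hcon
    push Not at hcon
    apply hirr
    refine ⟨0, ?_⟩
    simp [hcon]
  obtain ⟨j, hj⟩ := hj
  have h5 : (1 : ℝ) ≤ H := by
    have h6 := Int.one_le_abs hj
    have h7 := hH j
    have h8 : (1 : ℤ) ≤ H := by omega
    exact_mod_cast h8
  exact Real.rpow_le_rpow_of_exponent_le h5 (by
    have := le_max_left τ 1
    linarith)

end Pool.Agent.Results.MP_f9960f_nt.BracketPolynomialsH14
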