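import Mathlib
import Pool.Agent.V7H11.CP.Fin

set_option autoImplicit false

/-!
# Record prime gaps at consecutive powers of a real number

Let `f(x) = log x (log₂ x)² log₄ x / (log₃ x)²`, the size of the largest gaps between consecutive
primes that are known to occur up to `x`.

1. Let `D ≥ 1` and `δ > 0`. There is `c > 0` such that the real numbers `α` with the following
   property have Hausdorff dimension at least `1 - δ` in every interval of `(1, ∞)`: for ALL integer
   polynomials `g_1, …, g_r` (`r ≤ D`) of degree at most `D` such that `1, g_1, …, g_r` are linearly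
   independent there are infinitely many `n` such that none of the numbers
   `α^n, g_1(α) α^n, …, g_r(α) α^n` is within `c f(α^n)` of a prime. The exponents `n` may be taken
   in any given infinite set, and even in each one of countably many given infinite sets.
2. If `H(x) = o(f(x))`, the same is true with `H(α^n)` in place of `c f(α^n)`, for all finite
   families of polynomials and all degrees at once, for a set of `α` of Hausdorff dimension `1`.
3. In particular (`g_j = X^j`): there is a set of dimension `1` of numbers `α` such that for every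
   `r` there are infinitely many `n` for which no prime is within `H(α^n)` of any of the `r + 1`
   consecutive powers `α^n, …, α^(n+r)`.

Proof (`Pool.Agent.V7H11.CP`). If `α` runs through a short interval around `x`, so that `t = α^n` runs
through a window of length `Z = x^(η n)` around `x^n`, the numbers `g_j(α) α^n` are linear functions of
`t` up to a bounded error, with slopes `g_j(x) + x g_j'(x) / n`. For almost all `x` and all large `n`
these slopes satisfy the Diophantine condition of the uniform theorem of the starting library on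
record prime gaps around a number and several real multiples (`Pool.Agent.Y961.JR.linear_uniform`):
almost all `x` are not too close to zeros of integer polynomials of degree at most `D`. So each such
interval contains a much smaller one which consists of good `α`, and the mass transference
principle of the library (`Pool.Agent.R331.MT`), for countable intersections, gives the dimension.
-/

namespace Pool.Agent.Results.MP_f9960f_nt.ConsecutivePowersH11

open Polynomial Filter

/-- The record scale `f(x) = log x (log₂ x)² log₄ x / (log₃ x)²` (iterated natural logarithms). -/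
noncomputable def f (x : ℝ) : ℝ :=
  Real.log x * (Real.log (Real.log x)) ^ 2 * Real.log (Real.log (Real.log (Real.log x))) /
    (Real.log (Real.log (Real.log x))) ^ 2

/-- No prime is at distance at most `d` from `x`. -/
def PrimeFreeAround (x d : ℝ) : Prop := ∀ q : ℕ, q.Prime → d < |(q : ℝ) - x|

/-- The polynomials `1, g_1, …, g_r` are linearly independent. -/
def Independent {r : ℕ} (g : Fin r → ℤ[X]) : Prop :=
  LinearIndependent ℤ (Fin.cons 1 g : Fin (r + 1) → ℤ[X])

/-- No prime is at distance at most `d` from one of `a^n, g_1(a) a^n, …, g_r(a) a^n`. -/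
def AllPrimeFree {r : ℕ} (g : Fin r → ℤ[X]) (n : ℕ) (a d : ℝ) : Prop :=
  PrimeFreeAround (a ^ n) d ∧ ∀ j, PrimeFreeAround (aeval a (g j) * a ^ n) d

/-- **Record prime gaps at consecutive powers.** -/
theorem result :
    (∀ D : ℕ, 1 ≤ D → ∀ δ : ℝ, 0 < δ → ∃ c : ℝ, 0 < c ∧
      ∀ S : ℕ → Set ℕ, (∀ k, (S k).Infinite) → ∀ A B : ℝ, 1 ≤ A → A < B →
      ENNReal.ofReal (1 - δ) ≤ dimH {a : ℝ | (A < a ∧ a < B) ∧ ∀ k r : ℕ, r ≤ D →
        ∀ g : Fin r → ℤ[X], (∀ j, (g j).natDegree ≤ D) → Independent g →
          {n : ℕ | n ∈ S k ∧ AllPrimeFree g n a (c * f (a ^ n))}.Infinite}) ∧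
    (∀ H : ℝ → ℝ, Tendsto (fun x => H x / f x) atTop (nhds 0) →
      ∀ S : ℕ → Set ℕ, (∀ k, (S k).Infinite) → ∀ A B : ℝ, 1 ≤ A → A < B →
      dimH {a : ℝ | (A < a ∧ a < B) ∧ ∀ k r : ℕ, ∀ g : Fin r → ℤ[X], Independent g →
          {n : ℕ | n ∈ S k ∧ AllPrimeFree g n a (H (a ^ n))}.Infinite} = 1) ∧
    (∀ H : ℝ → ℝ, Tendsto (fun x => H x / f x) atTop (nhds 0) →
      ∀ A B : ℝ, 1 ≤ A → A < B →
      dimH {a : ℝ | (A < a ∧ a < B) ∧ ∀ r : ℕ,
          {n : ℕ | ∀ j ≤ r, PrimeFreeAround (a ^ (n + j)) (H (a ^ n))}.Infinite} = 1) := by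
  have hsmall : ∀ H : ℝ → ℝ, Tendsto (fun x => H x / f x) atTop (nhds 0) →
      ∀ ε : ℝ, 0 < ε → ∀ᶠ x : ℝ in atTop, H x ≤ ε * Pool.Agent.W147.PS.ff x := by
    intro H hH ε hε
    filter_upwards [(tendsto_order.1 hH).2 ε hε,
      Pool.Agent.W147.PS.ff_compare 1 one_pos le_rfl, eventually_gt_atTop 1] with x h1 h2 h3
    have h4 : 0 < f x := lt_of_lt_of_le (Real.log_pos h3) h2.1
    rw [div_lt_iff₀ h4] at h1
    exact h1.le
  refine ⟨?_, ?_, ?_⟩
  · intro D hD δ hδ
    obtain ⟨c, hc, h⟩ := Pool.Agent.V7H11.CP.main1 D hD δ hδ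
    refine ⟨c, hc, fun S hS A B hA hAB => (h S hS A B hA hAB).trans (dimH_mono ?_)⟩
    rintro a ⟨ha, hall⟩
    refine ⟨ha, fun k r hr g hg hind => ?_⟩
    exact Nat.frequently_atTop_iff_infinite.1 (hall k r hr g hg hind)
  · intro H hH S hS A B hA hAB
    rw [← Pool.Agent.V7H11.CP.main2 H (hsmall H hH) S hS A B hA hAB]
    congr 1
    ext a
    constructor
    · rintro ⟨ha, hall⟩
      exact ⟨ha, fun k r g hind => Nat.frequently_atTop_iff_infinite.2 (hall k r g hind)⟩
    · rintro ⟨ha, hall⟩
      exact ⟨ha, fun k r g hind => Nat.frequently_atTop_iff_infinite.1 (hall k r g hind)⟩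
  · intro H hH A B hA hAB
    apply le_antisymm
    · calc _ ≤ dimH (Set.univ : Set ℝ) := dimH_mono (Set.subset_univ _)
        _ = 1 := Real.dimH_univ
    · rw [← Pool.Agent.V7H11.CP.main2 H (hsmall H hH) (fun _ => Set.univ)
        (fun _ => Set.infinite_univ) A B hA hAB]
      apply dimH_mono
      rintro a ⟨ha, hall⟩
      refine ⟨ha, fun r => ?_⟩
      rw [← Nat.frequently_atTop_iff_infinite]
      refine (hall 0 r _ (Pool.Agent.V7H11.CP.ind_pow r)).mono ?_
      rintro n ⟨-, hg⟩
      exact Pool.Agent.V7H11.CP.good_pow hg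

end Pool.Agent.Results.MP_f9960f_nt.ConsecutivePowersH11
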