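import Pool.Agent.V7H18.JL.Main

set_option autoImplicit false

/-!
# Joint limit points of several consecutive prime gaps have positive lower density

Let `f(x) = log x (log₂ x)² log₄ x / (log₃ x)²`, the record scale of the start library.  For every `k`,
for ALL large `X` and ALL lengths `H` between `log X` and a constant times `f X`, a set of vectors of
measure at least a constant is realised by the `k + 1` gaps of blocks of `k + 2` consecutive primes in
`(X, 4X]`, all in one given reduced residue class, each vector by at least `X ^ (7/8)` blocks; and this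
inside every cone of fast shrinking or fast growing vectors.  In the limit: at every scale between `log`
and a constant times `f`, the set of the joint limit points has positive lower density near the origin
inside all these cones (at the scale `log`: in all cubes `(0, T)^(k+1)`, `T > 0`), with constants that
depend neither on the scale nor on the residue class.

The arithmetic input is the start theorem `Pool.Agent.H672R3.SimRec.window` (helper672, on top of
`Pool.Agent.H362R2.RQ.stRQ` of helper362, the record sieve of helper256 and helper410 and the Maynard-Tao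
sieve inside record windows of helper312's team).
-/

open Filter MeasureTheory Set

namespace Pool.Agent.Results.MP_f9960f_nt.JointDensityH18

/-- The record scale `f(x) = log x (log₂ x)² log₄ x / (log₃ x)²` (iterated natural logarithms). -/
noncomputable def f (x : ℝ) : ℝ :=
  Real.log x * (Real.log (Real.log x)) ^ 2 * Real.log (Real.log (Real.log (Real.log x))) /
    (Real.log (Real.log (Real.log x))) ^ 2

/-- The prime with index `n` (`p 0 = 2`). -/
noncomputable def p (n : ℕ) : ℕ := Nat.nth Nat.Prime n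

/-- The gap `p (n + 1) - p n`. -/
noncomputable def gap (n : ℕ) : ℝ := (p (n + 1) : ℝ) - p n

/-- `g` is a scale with constant `T` (relative to `c`): it varies slowly, and
`log X ≤ T g(X) ≤ c f(X)` for all large `X`. -/
structure Scale (c : ℝ) (g : ℝ → ℝ) (T : ℝ) : Prop where
  pos : 0 < T
  slow : ∀ δ : ℝ, 0 < δ → ∀ᶠ X : ℝ in atTop, ∀ y : ℝ, X ≤ y → y ≤ 4 * X → |g X / g y - 1| < δ
  range : ∀ᶠ X : ℝ in atTop, Real.log X ≤ T * g X ∧ T * g X ≤ c * f X

/-- The entries of `v` after the first are positive, and each is less than `ε` times the preceding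
one. -/
def Shrinking {k : ℕ} (ε : ℝ) (v : Fin (k + 1) → ℝ) : Prop :=
  ∀ i : Fin k, 0 < v i.succ ∧ v i.succ < ε * v i.castSucc

/-- The entries of `v` before the last are positive, and each is less than `ε` times the next one. -/
def Growing {k : ℕ} (ε : ℝ) (v : Fin (k + 1) → ℝ) : Prop :=
  ∀ i : Fin k, 0 < v i.castSucc ∧ v i.castSucc < ε * v i.succ

/-- The indices `n` of the blocks `p n, …, p (n + k + 1)` of `k + 2` consecutive primes in `(X, 4X]`, all
congruent to `a` modulo `q`, such that the `k + 1` gaps divided by `H` are within `δ` of `v`. -/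
def Blocks (k q a : ℕ) (X H δ : ℝ) (v : Fin (k + 1) → ℝ) : Set ℕ :=
  {n | X < p n ∧ (p (n + (k + 1)) : ℝ) ≤ 4 * X ∧ (∀ i : Fin (k + 1 + 1), p (n + i) ≡ a [MOD q]) ∧
    ∀ i : Fin (k + 1), |gap (n + i) / H - v i| ≤ δ}

/-- The limit vectors of `k + 1` consecutive gaps at the scale `g`, along blocks of `k + 2` consecutive
primes congruent to `a` modulo `q`. -/
def LimitVectors (g : ℝ → ℝ) (k q a : ℕ) : Set (Fin (k + 1) → ℝ) :=
  {v | ∀ η : ℝ, 0 < η → ∃ᶠ n : ℕ in atTop, (∀ i : Fin (k + 1 + 1), p (n + i) ≡ a [MOD q]) ∧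
    ∀ i : Fin (k + 1), |gap (n + i) / g (p n) - v i| < η}

/-- **Positive density of the joint limit points.**  Let `k ≥ 0`.  There is `c₀ > 0`, depending on `k`
only, such that `f` is a scale with constant `c₀`, `log` is a scale with every constant `T ≥ 1`, and for
every `ε > 0` there is `κ > 0` (depending on `k` and `ε` only) such that for all squarefree `q` and all
`a` prime to `q`:

* (all windows) for every `δ > 0`, all large `X` and ALL `H` with `log X ≤ H ≤ c₀ f(X)`, the set of the
  vectors `v` of the cube `(0, 1)^(k+1)` with `v_(i+1) < ε v_i` for all `i` such that at least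
  `X ^ (7/8)` blocks of `k + 2` consecutive primes of `(X, 4X]`, all congruent to `a` modulo `q`, have
  gaps within `δ H` of `H v` has Lebesgue measure at least `κ`; and the same with `v_i < ε v_(i+1)` for
  all `i`;
* (limit vectors) for every scale `g` with constant `T₀` and every `T` in `(0, T₀]`, the set of the limit
  vectors at the scale `g` which lie in the cube `(0, T)^(k+1)` and satisfy `v_(i+1) < ε v_i` for all `i`
  has measure at least `κ T^(k+1)`; and the same with `v_i < ε v_(i+1)` for all `i`. -/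
theorem result (k : ℕ) : ∃ c₀ : ℝ, 0 < c₀ ∧ Scale c₀ f c₀ ∧ (∀ T : ℝ, 1 ≤ T → Scale c₀ Real.log T) ∧
    ∀ ε : ℝ, 0 < ε → ∃ κ : ℝ, 0 < κ ∧ ∀ q a : ℕ, Squarefree q → a.Coprime q →
      (∀ δ : ℝ, 0 < δ → ∀ᶠ X : ℝ in atTop, ∀ H : ℝ, Real.log X ≤ H → H ≤ c₀ * f X →
        ENNReal.ofReal κ ≤ volume {v : Fin (k + 1) → ℝ | (∀ i, 0 < v i ∧ v i < 1) ∧ Shrinking ε v ∧
          X ^ (7 / 8 : ℝ) ≤ ((Blocks k q a X H δ v).ncard : ℝ)} ∧
        ENNReal.ofReal κ ≤ volume {v : Fin (k + 1) → ℝ | (∀ i, 0 < v i ∧ v i < 1) ∧ Growing ε v ∧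
          X ^ (7 / 8 : ℝ) ≤ ((Blocks k q a X H δ v).ncard : ℝ)}) ∧
      (∀ (g : ℝ → ℝ) (T₀ : ℝ), Scale c₀ g T₀ → ∀ T : ℝ, 0 < T → T ≤ T₀ →
        ENNReal.ofReal (κ * T ^ (k + 1)) ≤ volume {v : Fin (k + 1) → ℝ |
          (∀ i, 0 < v i ∧ v i < T) ∧ Shrinking ε v ∧ v ∈ LimitVectors g k q a} ∧
        ENNReal.ofReal (κ * T ^ (k + 1)) ≤ volume {v : Fin (k + 1) → ℝ |
          (∀ i, 0 < v i ∧ v i < T) ∧ Growing ε v ∧ v ∈ LimitVectors g k q a}) := by
  obtain ⟨K, c₀, hc₀, hw⟩ := Pool.Agent.V7H18.JL.window' (k + 1)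
  have hscale : ∀ (g : ℝ → ℝ) (T₀ : ℝ), Scale c₀ g T₀ → ∀ q a : ℕ, Squarefree q → a.Coprime q →
      Pool.Agent.V7H18.JL.Ram K (k + 1) (LimitVectors g k q a) T₀ :=
    fun g T₀ hg q a hq ha => Pool.Agent.V7H18.JL.ram_scale (k + 1) K c₀ hw g hg.slow T₀ hg.pos
      hg.range q a hq ha
  refine ⟨c₀, hc₀, ⟨hc₀, Pool.Agent.V7H18.JL.slow_ff, ?_⟩, fun T hT => ⟨by linarith,
    Pool.Agent.V7H18.JL.slow_log, ?_⟩, ?_⟩
  · filter_upwards [Pool.Agent.H672R3.InfRec.scale_ev c₀ hc₀] with X hX
    exact ⟨hX, le_rfl⟩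
  · filter_upwards [Pool.Agent.H672R3.InfRec.scale_ev (c₀ / T) (by positivity),
      eventually_ge_atTop 1] with X hX hX1
    have h0 : 0 ≤ Real.log X := Real.log_nonneg hX1
    refine ⟨le_mul_of_one_le_left h0 hT, ?_⟩
    have h1 : Real.log X ≤ c₀ / T * f X := hX
    have h2 := mul_le_mul_of_nonneg_left h1 (show 0 ≤ T by linarith)
    have h3 : T * (c₀ / T * f X) = c₀ * f X := by field_simp
    rw [h3] at h2
    exact h2
  · intro ε hε
    obtain ⟨κ, hκ, hd⟩ := Pool.Agent.V7H18.JL.density2 K k ε hε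
    refine ⟨κ, hκ, fun q a hq ha => ⟨fun δ hδ => ?_, fun g T₀ hg T hT hTT => ?_⟩⟩
    · filter_upwards [Pool.Agent.V7H18.JL.ram_window (k + 1) K c₀ hw δ hδ q a hq ha] with X hX H h1 h2
      obtain ⟨h3, h4⟩ := hd _ 1 1 one_pos le_rfl (hX H h1 h2)
      rw [one_pow, mul_one] at h3 h4
      refine ⟨h3.trans (measure_mono ?_), h4.trans (measure_mono ?_)⟩
      · rintro v ⟨hv1, hv2, hv3⟩
        exact ⟨hv2, hv3, hv1⟩
      · rintro v ⟨hv1, hv2, hv3⟩
        exact ⟨hv2, hv3, hv1⟩
    · obtain ⟨h3, h4⟩ := hd _ T₀ T hT hTT (hscale g T₀ hg q a hq ha)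
      refine ⟨h3.trans (measure_mono ?_), h4.trans (measure_mono ?_)⟩
      · rintro v ⟨hv1, hv2, hv3⟩
        exact ⟨hv2, hv3, hv1⟩
      · rintro v ⟨hv1, hv2, hv3⟩
        exact ⟨hv2, hv3, hv1⟩

end Pool.Agent.Results.MP_f9960f_nt.JointDensityH18
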