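import Mathlib
import Pool.Agent.V7H14.BN.Main
import Pool.Agent.V7H14.BN.Box

set_option autoImplicit false

/-!
# Record prime gaps around the values of noncomposite polynomials

Let `f(Z) = log Z (log₂ Z)² log₄ Z / (log₃ Z)²`, the size of the largest gaps between consecutive
primes that are known to occur up to `Z`.  Let `F_1, …, F_k` be polynomials in `n ≥ 2` variables with
integer coefficients such that

* for every `j` some translate `F_j - c`, `c` a complex number, is irreducible over the complex
  numbers (equivalently, by a theorem of Bertini, Krull and Stein, `F_j` is not a polynomial of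
  degree at least two in another complex polynomial: `F_j` is noncomposite);
* no two of the `F_j` are linearly dependent modulo the constants.

Then for every `ε > 0` there is `c > 0` such that for all large `Z` EVERY box
`(M_1, M_1 + Z] × ⋯ × (M_n, M_n + Z]` contains at least `Z ^ (n - ε)` integer points `x` such that for
all `j` at the same time all the integers at distance at most `c f(Z)` from `F_j(x)` have
a prime factor `p ≤ Z ^ ε`; so no prime `> Z ^ ε` is that close to a value `F_j(x)`.

The polynomials need not be homogeneous (weighted or not), squarefree, nor of a special shape, and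
their degrees are arbitrary; for one form `F` the condition is that `F` is not `a G ^ m` with `m ≥ 2`.

Method.  `V7H14/BN/AbsIrr`, `Bertini`: a monic irreducible polynomial in two variables over a field of
characteristic `0` with a simple rational zero is absolutely irreducible, hence the section of an
irreducible complex hypersurface with the generic plane through a suitable line is absolutely
irreducible (Bertini).  `V7H14/GF/Spec`: so is the generic member of the family of all the plane
sections of all the hypersurfaces `F_j = T`, because its factors have integral coefficients and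
would specialise.  `V7H14/BN/Fam`, `Params`: by the theorems of Bertini-Noether and Weil of the library
(`R410/LW`, `R410/PW`) for a suitable integral direction of planes, which is the same for all `j`, the
curves cut out on these planes modulo `p` are irreducible and have `p + O(√p)` points, outside the
zeros `r` of one integer polynomial `m_j` and `O(p ^ (n - 3))` planes.  `V7H14/BN/Count`, `Main`: summation
over the parallel planes (Schwartz-Zippel for the exceptional ones) gives the numbers of the solutions of
`F_j = r` and `F_i = r, F_j = s`.  The exceptional residues `m_j(r) = 0` are not images of fixed integers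
any more, and the criterion of the library (`Y837/SV`, helper837; `N542/PT`, helper542) is proved in a form in
which every shift may be missing at a bounded number of the sieving primes (`V7H14/GF/Cov`, `V7H14/BP`).
-/

namespace Pool.Agent.Results.MP_f9960f_nt.NoncompositeValuesH14

/-- The record scale `f(Z) = log Z (log₂ Z)² log₄ Z / (log₃ Z)²` (iterated natural logarithms). -/
noncomputable def f (Z : ℝ) : ℝ :=
  Real.log Z * (Real.log (Real.log Z)) ^ 2 * Real.log (Real.log (Real.log (Real.log Z))) /
    (Real.log (Real.log (Real.log Z))) ^ 2

/-- Some translate `F - c` is irreducible in `ℂ[x_1, …, x_n]`. -/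
def HasIrreducibleTranslate {n : ℕ} (F : MvPolynomial (Fin n) ℤ) : Prop :=
  ∃ c : ℂ, Irreducible (MvPolynomial.map (Int.castRingHom ℂ) F - MvPolynomial.C c)

/-- **Record prime gaps around the values of noncomposite polynomials.** -/
theorem result {ι : Type} [Finite ι] {n : ℕ} (hn : 2 ≤ n) (F : ι → MvPolynomial (Fin n) ℤ)
    (hF : ∀ j, HasIrreducibleTranslate (F j))
    (hind : ∀ i j, i ≠ j → ∀ a b c : ℤ,
      MvPolynomial.C a * F i + MvPolynomial.C b * F j = MvPolynomial.C c → a = 0 ∧ b = 0)
    (ε : ℝ) (hε : 0 < ε) (hε1 : ε ≤ 1) :
    ∃ c : ℝ, 0 < c ∧ ∃ Z₀ : ℝ, ∀ Z : ℕ, Z₀ ≤ Z → ∀ M : Fin n → ℤ,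
      ∃ G : Finset (Fin n → ℤ), (Z : ℝ) ^ ((n : ℝ) - ε) ≤ (G.card : ℝ) ∧ ∀ x ∈ G,
        (∀ i, M i < x i ∧ x i ≤ M i + Z) ∧
        ∀ j, ∀ k : ℤ, |(k : ℝ) - MvPolynomial.eval x (F j)| ≤ c * f Z →
          ∃ p : ℕ, p.Prime ∧ (p : ℝ) ≤ (Z : ℝ) ^ ε ∧ (p : ℤ) ∣ k := by
  have := Fintype.ofFinite ι
  obtain ⟨m, rfl⟩ : ∃ m, n = m + 2 := ⟨n - 2, by omega⟩
  exact Pool.Agent.V7H14.BN.many_box (m + 2) (by omega) F (Pool.Agent.V7H14.BN.crit_n F hF hind) ε hε hε1

end Pool.Agent.Results.MP_f9960f_nt.NoncompositeValuesH14
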